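import Pool.Agent.Y264.QR.Stm

/-!
# Project QR: derivatives of the branches, integral of the logarithmic derivative
-/

set_option autoImplicit false

open Set Filter Topology MeasureTheory
open scoped Real NNReal

noncomputable section

namespace Pool.Agent.Y147.QR

/-- the logarithm of a positive function with multiplicative Lipschitz bound is Lipschitz -/
theorem lip_log (f : ℝ → ℝ) (K : ℝ) (hK : 0 ≤ K) (hf : ∀ t, 0 < f t)
    (h : ∀ s t, f s ≤ Real.exp (K * |s - t|) * f t) :
    LipschitzWith K.toNNReal fun t => Real.log (f t) := by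
  have key : ∀ s t, Real.log (f s) ≤ Real.log (f t) + K * |s - t| := by
    intro s t
    have h1 := Real.log_le_log (hf s) (h s t)
    rw [Real.log_mul (Real.exp_pos _).ne' (hf t).ne', Real.log_exp] at h1
    linarith
  refine LipschitzWith.of_dist_le_mul fun s t => ?_
  rw [Real.dist_eq, Real.dist_eq, Real.coe_toNNReal K hK, abs_le]
  have h1 := key s t
  have h2 := key t s
  rw [abs_sub_comm t s] at h2
  constructor <;> linarith

theorem K_nonneg (f : ℝ → ℝ) (K : ℝ) (hf : ∀ t, 0 < f t)
    (h : ∀ s t, f s ≤ Real.exp (K * |s - t|) * f t) : 0 ≤ K := by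
  have h1 := h 0 1
  have h2 := h 1 0
  have e1 : |(0 : ℝ) - 1| = 1 := by norm_num
  have e2 : |(1 : ℝ) - 0| = 1 := by norm_num
  rw [e1, mul_one] at h1
  rw [e2, mul_one] at h2
  by_contra hK
  push Not at hK
  have h3 : Real.exp K < 1 := by
    rw [Real.exp_lt_one_iff]
    exact hK
  have h4 : Real.exp K * f 1 < f 1 := by
    have := mul_lt_mul_of_pos_right h3 (hf 1)
    linarith
  have h5 : Real.exp K * f 0 < f 0 := by
    have := mul_lt_mul_of_pos_right h3 (hf 0)
    linarith
  linarith

theorem ae_diff (f : ℝ → ℝ) (K : ℝ) (hf : ∀ t, 0 ≤ f t)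
    (h : ∀ s t, f s ≤ Real.exp (K * |s - t|) * f t) : ∀ᵐ t : ℝ, DifferentiableAt ℝ f t := by
  by_cases h0 : ∃ t, f t = 0
  · obtain ⟨t, ht⟩ := h0
    have hz : f = fun _ => 0 := by
      funext s
      have h1 := h s t
      rw [ht, mul_zero] at h1
      exact le_antisymm h1 (hf s)
    rw [hz]
    exact Eventually.of_forall fun s => differentiableAt_const _
  · push Not at h0
    have hp : ∀ t, 0 < f t := fun t => lt_of_le_of_ne (hf t) (h0 t).symm
    have hl := lip_log f K (K_nonneg f K hp h) hp h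
    filter_upwards [hl.ae_differentiableAt_real] with t ht
    have h1 : DifferentiableAt ℝ (fun s => Real.exp (Real.log (f s))) t := ht.exp
    have h2 : (fun s => Real.exp (Real.log (f s))) = f := by
      funext s
      exact Real.exp_log (hp s)
    rwa [h2] at h1

/-- a derivative is determined by a one-sided bound for both signs -/
theorem deriv_of_le (f : ℝ → ℝ) (d c t : ℝ) (hd : HasDerivAt f d t)
    (h : ∀ ε : ℝ, 0 < ε → ∃ δ : ℝ, 0 < δ ∧ ∀ τ : ℝ, |τ| < δ → f (t + τ) ≤ f t + c * τ + ε * |τ|) :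
    d = c := by
  have key : ∀ ε : ℝ, 0 < ε → |d - c| ≤ 2 * ε := by
    intro ε hε
    obtain ⟨δ, hδ, h1⟩ := h ε hε
    have h2 := (hasDerivAt_iff_isLittleO_nhds_zero.1 hd).def hε
    obtain ⟨δ', hδ', h3⟩ := Metric.eventually_nhds_iff.1 h2
    set τ : ℝ := min δ δ' / 2 with hτ
    have hτ0 : 0 < τ := by
      have : 0 < min δ δ' := lt_min hδ hδ'
      positivity
    have hτ1 : τ < δ := by
      have : min δ δ' ≤ δ := min_le_left _ _
      rw [hτ]
      linarith
    have hτ2 : τ < δ' := by
      have : min δ δ' ≤ δ' := min_le_right _ _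
      rw [hτ]
      linarith
    have a1 := h1 τ (by rw [abs_of_pos hτ0]; exact hτ1)
    have a2 := h1 (-τ) (by rw [abs_neg, abs_of_pos hτ0]; exact hτ1)
    have b1 := h3 (y := τ) (by rw [Real.dist_eq, sub_zero, abs_of_pos hτ0]; exact hτ2)
    have b2 := h3 (y := -τ) (by rw [Real.dist_eq, sub_zero, abs_neg, abs_of_pos hτ0]; exact hτ2)
    rw [Real.norm_eq_abs, Real.norm_eq_abs, abs_of_pos hτ0, abs_le, smul_eq_mul] at b1
    rw [Real.norm_eq_abs, Real.norm_eq_abs, abs_neg, abs_of_pos hτ0, abs_le, smul_eq_mul] at b2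
    rw [abs_of_pos hτ0] at a1
    rw [abs_neg, abs_of_pos hτ0] at a2
    rw [abs_le]
    constructor
    · have : τ * (c - d) ≤ τ * (2 * ε) := by nlinarith [b2.1, a2]
      have := le_of_mul_le_mul_left this hτ0
      linarith
    · have : τ * (d - c) ≤ τ * (2 * ε) := by nlinarith [b1.1, a1]
      exact le_of_mul_le_mul_left this hτ0
  have h0 : |d - c| ≤ 0 := by
    refine le_of_forall_pos_le_add fun ε hε => ?_
    have := key (ε / 2) (by positivity)
    linarith
  have := abs_nonpos_iff.1 h0
  linarith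

theorem stAE : Pool.Agent.Y264.QR.StAE := by
  intro E κ K hE hm hK hd
  have hall : ∀ᵐ t : ℝ, ∀ j, DifferentiableAt ℝ (E j) t :=
    ae_all_iff.2 fun j => ae_diff (E j) K (hE j) (hK j)
  filter_upwards [hall] with t ht j
  classical
  have hex : ∃ i, E i t = E j t := ⟨j, rfl⟩
  set i := Nat.find hex with hi
  have hij : E i t = E j t := Nat.find_spec hex
  have hle : i ≤ j := Nat.find_min' hex rfl
  have hlt : ∀ l, l < i → E l t < E i t := by
    intro l hl
    refine lt_of_le_of_ne (hm l i t hl.le) fun he => ?_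
    exact Nat.find_min hex hl (he.trans hij)
  have hdi : deriv (E i) t = -(κ j t * E i t) := by
    refine deriv_of_le (E i) _ _ t (ht i).hasDerivAt fun ε hε => ?_
    obtain ⟨δ, hδ, h1⟩ := hd i j t hij hlt ε hε
    refine ⟨δ, hδ, fun τ hτ => (h1 τ hτ).trans (le_of_eq ?_)⟩
    ring
  have hmin : IsLocalMin (fun s => E j s - E i s) t := by
    refine Eventually.of_forall fun s => ?_
    have h1 := hm i j s hle
    simp only [hij, sub_self]
    linarith
  have hz : HasDerivAt (fun s => E j s - E i s) (deriv (E j) t - deriv (E i) t) t :=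
    (ht j).hasDerivAt.sub (ht i).hasDerivAt
  have h0 := hmin.hasDerivAt_eq_zero hz
  have h1 : deriv (E j) t = -(κ j t * E j t) := by
    rw [← hij, ← hdi]
    linarith
  rw [← h1]
  exact (ht j).hasDerivAt

theorem stFTC : Pool.Agent.Y264.QR.StFTC := by
  intro f κ K hf hK hd
  have hK0 := K_nonneg f K hf hK
  have hl := lip_log f K hK0 hf hK
  set g : ℝ → ℝ := fun t => Real.log (f t) with hg
  have hg1 : ∀ᵐ t : ℝ, deriv g t = -κ t := by
    filter_upwards [hd] with t ht
    have h1 : HasDerivAt g (-(κ t * f t) / f t) t := ht.log (hf t).ne'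
    rw [h1.deriv]
    field_simp [(hf t).ne']
  have hκ : κ =ᵐ[volume] fun t => -deriv g t := by
    filter_upwards [hg1] with t ht
    rw [ht, neg_neg]
  refine ⟨?_, ?_, ?_⟩
  · filter_upwards [hκ] with t ht
    rw [ht, abs_neg, ← Real.norm_eq_abs]
    have := norm_deriv_le_of_lipschitz (x₀ := t) hl
    rwa [Real.coe_toNNReal K hK0] at this
  · exact ((measurable_deriv g).neg.aemeasurable).congr hκ.symm
  · intro α β hαβ
    have hac : AbsolutelyContinuousOnInterval g α β :=
      (hl.lipschitzOnWith (s := uIcc α β)).absolutelyContinuousOnInterval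
    have h1 := hac.integral_deriv_eq_sub
    have h2 : ∫ t in α..β, κ t = ∫ t in α..β, -deriv g t :=
      intervalIntegral.integral_congr_ae (hκ.mono fun t ht _ => ht)
    rw [h2, intervalIntegral.integral_neg, h1]
    ring

end Pool.Agent.Y147.QR
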